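import Pool.Agent.SumProd339.OneAddFinal

set_option autoImplicit false

/-!
# Systems with one essential addition equation satisfy the bound `2^(2^(n-2))`
-/

namespace Pool.Agent.Results.MP_78a2de_al.OneAddition

open Pool.Agent.SumProd339

/-- Let `S ⊆ E_n` contain an equation `x_{i₁} = 1` and let `x` be an isolated solution of `S` (for
instance any solution, if `S` has finitely many).  Suppose that all addition equations of `S`, with
at most one exception, are doublings `x_i + x_i = x_k` or have a zero coordinate at `x`.  Then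
`|x_i| ≤ 2^(2^(n-2))`. -/
theorem result (n : ℕ) (S : Set (Eqn n)) (i₁ : Fin n) (h1 : Eqn.one i₁ ∈ S)
    (x : Fin n → ℂ) (hx : IsSol S x) (hiso : Isolated S x) (hone : OneAddition S x) (i : Fin n) :
    ‖x i‖ ≤ (2 : ℝ) ^ ((2 : ℝ) ^ ((n : ℝ) - 2)) := by
  have h := oneAddition_bound S x hx hiso hone {i₁} (by simp [h1]) i
  have e : (n : ℝ) - (({i₁} : Finset (Fin n)).card : ℝ) - 1 = (n : ℝ) - 2 := by
    rw [Finset.card_singleton]
    push_cast
    ring
  rw [e] at h
  exact h

end Pool.Agent.Results.MP_78a2de_al.OneAddition
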