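import Pool.Agent.SumProd339.Isolated

set_option autoImplicit false

/-!
# Isolated tame solutions satisfy the bound `2^(2^(n-2))`
-/

namespace Pool.Agent.Results.MP_78a2de_al.TameSolutions

open Pool.Agent.SumProd339

/-- Let `S ⊆ E_n` contain an equation `x_{i₁} = 1` and let `x` be an isolated solution of `S` (for
instance any solution, if `S` has finitely many) which is tame for `S`.  Then
`|x_i| ≤ 2^(2^(n-2))`. -/
theorem result (n : ℕ) (S : Set (Eqn n)) (i₁ : Fin n) (h1 : Eqn.one i₁ ∈ S)
    (x : Fin n → ℂ) (hx : IsSol S x) (hiso : Isolated S x) (ht : Tame S x) (i : Fin n) :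
    ‖x i‖ ≤ (2 : ℝ) ^ ((2 : ℝ) ^ ((n : ℝ) - 2)) := by
  have hspan : Submodule.span ℝ {v | Lead S x v} = ⊤ := span_of_isolated S x hx hiso ht
  have h := lead_bound S x hx ∅ (by simp) {i₁} (by simp [h1]) (by simpa using hspan) i
  have e : (n : ℝ) - (({i₁} : Finset (Fin n)).card : ℝ) - 1 = (n : ℝ) - 2 := by
    rw [Finset.card_singleton]
    push_cast
    ring
  rw [e] at h
  exact h

end Pool.Agent.Results.MP_78a2de_al.TameSolutions
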